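import Pool.Agent.J6H83.Dv.Cht
import Pool.Agent.R837.FM.Main

/-!
The action of the general linear group over a finite field on the variety of the matrices of rank
at most `ρ`.
-/

set_option autoImplicit false
set_option linter.unusedSectionVars false

open MvPolynomial Matrix Cardinal AlgebraicGeometry CategoryTheory

universe u v

namespace Pool.Agent.J6H83.Dv

open Pool.Agent.R837.FM
open Pool.Agent.Y212.Fk (det_mem)
open Pool.Agent.J6H83.Pk (adjugate_mem)

variable {F : Type v} [Field F] [Fintype F] {k : Type u} [Field k] [Algebra F k] {n ρ c : ℕ}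

section act

/-- The substitution `x ↦ g x`. -/
noncomputable def sbs (k : Type u) [Field k] [Algebra F k] (m : ℕ)
    (g : Matrix (Fin n) (Fin n) F) :
    MvPolynomial (Fin n × Fin m) k →ₐ[k] MvPolynomial (Fin n × Fin m) k :=
  aeval fun u => ∑ j, C (algebraMap F k (g u.1 j)) * X (j, u.2)

lemma sbs_eq (m : ℕ) (g : Matrix (Fin n) (Fin n) F) : sbs k m g = aff g fun _ _ => 0 := by
  apply MvPolynomial.algHom_ext
  rintro ⟨i, l⟩
  rw [aff_X, sbs, aeval_X, map_zero, add_zero]

/-- The action on the polynomial ring. -/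
noncomputable def tau (k : Type u) [Field k] [Algebra F k] (ρ c : ℕ)
    (g : Matrix (Fin n) (Fin n) F) : PR k n ρ c →ₐ[k] PR k n ρ c :=
  aeval (Sum.elim (fun u => ∑ j, C (algebraMap F k (g u.1 j)) * X (Sum.inl (j, u.2)))
    fun u => X (Sum.inr u))

lemma tau_inl (g : Matrix (Fin n) (Fin n) F) (i : Fin n) (l : Fin ρ) :
    tau k ρ c g (X (Sum.inl (i, l))) =
      ∑ j, C (algebraMap F k (g i j)) * X (Sum.inl (j, l)) := by
  rw [tau, aeval_X]
  rfl

lemma tau_inr (g : Matrix (Fin n) (Fin n) F) (u : Fin ρ × Fin c) :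
    tau k ρ c g (X (Sum.inr u)) = X (Sum.inr u) := by
  rw [tau, aeval_X]
  rfl

lemma tau_C (g : Matrix (Fin n) (Fin n) F) (a : k) : tau k ρ c g (C a) = C a :=
  (tau k ρ c g).commutes a

lemma tau_comp (g h : Matrix (Fin n) (Fin n) F) :
    (tau k ρ c g).comp (tau k ρ c h) = tau k ρ c (h * g) := by
  apply MvPolynomial.algHom_ext
  rintro (⟨i, l⟩ | u)
  · rw [AlgHom.comp_apply, tau_inl, tau_inl, map_sum]
    have h1 : ∀ j, tau k ρ c g (C (algebraMap F k (h i j)) * X (Sum.inl (j, l))) =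
        ∑ j', C (algebraMap F k (h i j * g j j')) * X (Sum.inl (j', l)) := by
      intro j
      rw [map_mul, tau_C, tau_inl, Finset.mul_sum]
      exact Finset.sum_congr rfl fun j' _ => by rw [map_mul, C_mul]; ring
    rw [Finset.sum_congr rfl fun j _ => h1 j, Finset.sum_comm]
    apply Finset.sum_congr rfl
    intro j' _
    rw [← Finset.sum_mul, Matrix.mul_apply, map_sum, map_sum]
  · rw [AlgHom.comp_apply, tau_inr, tau_inr, tau_inr]

lemma tau_one : tau (F := F) k ρ c (1 : Matrix (Fin n) (Fin n) F) = AlgHom.id k _ := by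
  apply MvPolynomial.algHom_ext
  rintro (⟨i, l⟩ | u)
  · rw [tau_inl, Finset.sum_eq_single i]
    · simp
    · intro j _ hj
      rw [Matrix.one_apply_ne (Ne.symm hj)]
      simp
    · intro h
      exact absurd (Finset.mem_univ i) h
  · rw [tau_inr]
    rfl

lemma tau_injective (g : Matrix.GeneralLinearGroup (Fin n) F) :
    Function.Injective (tau k ρ c (g : Matrix (Fin n) (Fin n) F)) := by
  apply Function.LeftInverse.injective (g := tau k ρ c
    ((g⁻¹ : Matrix.GeneralLinearGroup (Fin n) F) : Matrix (Fin n) (Fin n) F))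
  intro f
  have h1 := tau_comp (k := k) (ρ := ρ) (c := c)
    ((g⁻¹ : Matrix.GeneralLinearGroup (Fin n) F) : Matrix (Fin n) (Fin n) F)
    (g : Matrix (Fin n) (Fin n) F)
  rw [← Units.val_mul, mul_inv_cancel, Units.val_one, tau_one] at h1
  exact DFunLike.congr_fun h1 f

/-- The action on the function field. -/
noncomputable def sg (g : Matrix.GeneralLinearGroup (Fin n) F) :
    LR k n ρ c →+* LR k n ρ c :=
  IsFractionRing.lift (A := PR k n ρ c) (K := LR k n ρ c)
    (g := ((IsScalarTower.toAlgHom k (PR k n ρ c) (LR k n ρ c)).comp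
      (tau k ρ c (g : Matrix (Fin n) (Fin n) F))).toRingHom)
    (show Function.Injective fun b => algebraMap (PR k n ρ c) (LR k n ρ c)
        (tau k ρ c (g : Matrix (Fin n) (Fin n) F) b) from
      (IsFractionRing.injective (PR k n ρ c) (LR k n ρ c)).comp (tau_injective g))

lemma sg_algebraMap (g : Matrix.GeneralLinearGroup (Fin n) F) (b : PR k n ρ c) :
    sg g (algebraMap (PR k n ρ c) (LR k n ρ c) b) =
      algebraMap (PR k n ρ c) (LR k n ρ c) (tau k ρ c (g : Matrix (Fin n) (Fin n) F) b) :=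
  IsFractionRing.lift_algebraMap _ _

lemma sg_k (g : Matrix.GeneralLinearGroup (Fin n) F) (a : k) :
    sg g (algebraMap k (LR k n ρ c) a) = algebraMap k (LR k n ρ c) a := by
  rw [IsScalarTower.algebraMap_apply k (PR k n ρ c) (LR k n ρ c), sg_algebraMap]
  congr 1
  exact (tau k ρ c (g : Matrix (Fin n) (Fin n) F)).commutes a

lemma sg_F (g : Matrix.GeneralLinearGroup (Fin n) F) (a : F) :
    sg g (algebraMap F (LR k n ρ c) a) = algebraMap F (LR k n ρ c) a := by
  rw [IsScalarTower.algebraMap_apply F k (LR k n ρ c), sg_k]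

lemma sg_t (g : Matrix.GeneralLinearGroup (Fin n) F) (i : Fin n) (l : Fin ρ) :
    sg g (tL k n ρ c i l) = ∑ j, algebraMap F (LR k n ρ c)
      ((g : Matrix (Fin n) (Fin n) F) i j) * tL k n ρ c j l := by
  change sg g (algebraMap (PR k n ρ c) (LR k n ρ c) (X (Sum.inl (i, l)))) = _
  rw [sg_algebraMap, tau_inl, map_sum]
  apply Finset.sum_congr rfl
  intro j _
  rw [map_mul, IsScalarTower.algebraMap_apply F k (LR k n ρ c),
    IsScalarTower.algebraMap_apply k (PR k n ρ c) (LR k n ρ c)]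
  rfl

lemma sg_w (g : Matrix.GeneralLinearGroup (Fin n) F) (l : Fin ρ) (j : Fin (ρ + c)) :
    sg g (wL k n ρ c l j) = wL k n ρ c l j := by
  induction j using Fin.addCases with
  | left l' =>
    rw [wL_castAdd]
    split_ifs
    · exact map_one _
    · exact map_zero _
  | right j => rw [wL_natAdd, sg_algebraMap, tau_inr]

lemma sg_x (g : Matrix.GeneralLinearGroup (Fin n) F) (i : Fin n) (j : Fin (ρ + c)) :
    sg g (xL k n ρ c i j) = ∑ l, algebraMap F (LR k n ρ c)
      ((g : Matrix (Fin n) (Fin n) F) i l) * xL k n ρ c l j := by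
  rw [xL_eq, Matrix.mul_apply, map_sum]
  have h1 : ∀ l, sg g (tL k n ρ c i l * wL k n ρ c l j) =
      ∑ l', algebraMap F (LR k n ρ c) ((g : Matrix (Fin n) (Fin n) F) i l') *
        (tL k n ρ c l' l * wL k n ρ c l j) := by
    intro l
    rw [map_mul, sg_t, sg_w, Finset.sum_mul]
    exact Finset.sum_congr rfl fun l' _ => by ring
  rw [Finset.sum_congr rfl fun l _ => h1 l, Finset.sum_comm]
  apply Finset.sum_congr rfl
  intro l _
  rw [← Finset.mul_sum, Matrix.mul_apply]

lemma sg_We (g : Matrix.GeneralLinearGroup (Fin n) F) (t : T0 k n ρ c) (l : Fin ρ)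
    (j : Fin (ρ + c)) : sg g (We (wL k n ρ c) t.1 l j) = We (wL k n ρ c) t.1 l j := by
  have h1 : ∀ e : Fin ρ → Fin (ρ + c), sg g (Ue (wL k n ρ c) e).det =
      (Ue (wL k n ρ c) e).det := by
    intro e
    rw [RingHom.map_det]
    congr 1
    ext1 a b
    exact sg_w g _ _
  rw [We_eq_div t.2, map_div₀, h1, h1]

lemma sg_R0 (g : Matrix.GeneralLinearGroup (Fin n) F) (t : T0 k n ρ c) (b : LR k n ρ c)
    (hb : b ∈ R0 t) : sg g b = b := by
  induction hb using Algebra.adjoin_induction with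
  | mem x hx =>
    obtain ⟨u, rfl⟩ := hx
    exact sg_We g t _ _
  | algebraMap r => exact sg_k g r
  | add x y _ _ hx hy => rw [map_add, hx, hy]
  | mul x y _ _ hx hy => rw [map_mul, hx, hy]

lemma sg_H0 [DecidableEq F] (hρn : ρ ≤ n) (g : Matrix.GeneralLinearGroup (Fin n) F)
    (t : T0 k n ρ c) : sg g (H0 F hρn t) = H0 F hρn t := by
  rw [H0, map_prod]
  apply Fintype.prod_equiv (Equiv.mulRight g)
  intro γ
  rw [RingHom.map_det]
  congr 1
  ext1 i j
  rw [RingHom.mapMatrix_apply, Matrix.map_apply]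
  simp only [Ue, Matrix.submatrix_apply, gx, Matrix.of_apply, id, map_sum, map_mul, sg_F, sg_x,
    Equiv.coe_mulRight, Units.val_mul, Matrix.mul_apply, Finset.sum_mul, Finset.mul_sum]
  rw [Finset.sum_comm]
  exact Finset.sum_congr rfl fun l _ => Finset.sum_congr rfl fun l' _ => by ring

end act

section ring

variable (k n ρ c) in
/-- The homomorphism to the function field. -/
noncomputable def thL : MvPolynomial (Fin n × Fin (ρ + c)) k →ₐ[k] LR k n ρ c :=
  (IsScalarTower.toAlgHom k (PR k n ρ c) (LR k n ρ c)).comp (Th k n ρ c)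

lemma thL_X (i : Fin n) (j : Fin (ρ + c)) : thL k n ρ c (X (i, j)) = xL k n ρ c i j := by
  change algebraMap (PR k n ρ c) (LR k n ρ c) (Th k n ρ c (X (i, j))) = _
  rw [Th, aeval_X]
  rfl

lemma thL_eq_zero {f : MvPolynomial (Fin n × Fin (ρ + c)) k} :
    thL k n ρ c f = 0 ↔ f ∈ lowI k n (ρ + c) ρ := by
  rw [mem_lowI_iff]
  exact FaithfulSMul.algebraMap_eq_zero_iff (PR k n ρ c) (LR k n ρ c)

lemma thL_range : (thL k n ρ c).range = Bx k n ρ c := by
  rw [← Algebra.map_top, ← MvPolynomial.adjoin_range_X, AlgHom.map_adjoin, Bx]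
  congr 1
  ext a
  constructor
  · rintro ⟨_, ⟨⟨i, l⟩, rfl⟩, rfl⟩
    exact ⟨i, l, thL_X i l⟩
  · rintro ⟨i, l, rfl⟩
    exact ⟨_, ⟨(i, l), rfl⟩, thL_X i l⟩

lemma thL_of_hom {σ : LR k n ρ c →+* LR k n ρ c}
    (hk : ∀ a : k, σ (algebraMap k (LR k n ρ c) a) = algebraMap k (LR k n ρ c) a)
    {g : Matrix (Fin n) (Fin n) F}
    (hσ : ∀ i j, σ (xL k n ρ c i j) = ∑ l, algebraMap F (LR k n ρ c) (g i l) * xL k n ρ c l j)
    (f : MvPolynomial (Fin n × Fin (ρ + c)) k) :
    σ (thL k n ρ c f) = thL k n ρ c (sbs k (ρ + c) g f) := by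
  let σ' : LR k n ρ c →ₐ[k] LR k n ρ c := { σ with commutes' := hk }
  have h : σ'.comp (thL k n ρ c) = (thL k n ρ c).comp (sbs k (ρ + c) g) := by
    apply MvPolynomial.algHom_ext
    rintro ⟨i, l⟩
    rw [AlgHom.comp_apply, AlgHom.comp_apply, thL_X, sbs, aeval_X, map_sum]
    change σ (xL k n ρ c i l) = _
    rw [hσ]
    apply Finset.sum_congr rfl
    intro j _
    rw [map_mul, thL_X, IsScalarTower.algebraMap_apply F k (LR k n ρ c)]
    congr 1
    exact ((thL k n ρ c).commutes _).symm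
  exact DFunLike.congr_fun h f

lemma sg_thL (g : Matrix.GeneralLinearGroup (Fin n) F)
    (f : MvPolynomial (Fin n × Fin (ρ + c)) k) :
    sg g (thL k n ρ c f) = thL k n ρ c (sbs k (ρ + c) (g : Matrix (Fin n) (Fin n) F) f) :=
  thL_of_hom (sg_k g) (sg_x g) f

/-- The polynomials whose classes modulo the ideal are invariant. -/
noncomputable def pre (F : Type v) [Field F] (k : Type u) [Field k] [Algebra F k]
    (n m ρ : ℕ) (lv s : Fin n → ℕ) : Subalgebra k (MvPolynomial (Fin n × Fin m) k) where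
  carrier := {f | ∀ g : Matrix.GeneralLinearGroup (Fin n) F,
    Cond lv s (g : Matrix (Fin n) (Fin n) F) →
      sbs k m (g : Matrix (Fin n) (Fin n) F) f - f ∈ lowI k n m ρ}
  mul_mem' := by
    intro a b ha hb g hg
    have h1 : sbs k m (g : Matrix (Fin n) (Fin n) F) (a * b) - a * b =
        sbs k m (g : Matrix (Fin n) (Fin n) F) a *
          (sbs k m (g : Matrix (Fin n) (Fin n) F) b - b) +
        b * (sbs k m (g : Matrix (Fin n) (Fin n) F) a - a) := by
      rw [map_mul]; ring
    rw [h1]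
    exact Ideal.add_mem _ (Ideal.mul_mem_left _ _ (hb g hg)) (Ideal.mul_mem_left _ _ (ha g hg))
  add_mem' := by
    intro a b ha hb g hg
    have h1 : sbs k m (g : Matrix (Fin n) (Fin n) F) (a + b) - (a + b) =
        (sbs k m (g : Matrix (Fin n) (Fin n) F) a - a) +
          (sbs k m (g : Matrix (Fin n) (Fin n) F) b - b) := by
      rw [map_add]; ring
    rw [h1]
    exact Ideal.add_mem _ (ha g hg) (hb g hg)
  algebraMap_mem' := by
    intro a g _
    rw [AlgHom.commutes, sub_self]
    exact Ideal.zero_mem _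

/-- The coordinate ring of the variety of the matrices of rank at most `ρ`. -/
abbrev OO (k : Type u) [Field k] (n m ρ : ℕ) := MvPolynomial (Fin n × Fin m) k ⧸ lowI k n m ρ

/-- The ring of invariants. -/
noncomputable def AA (F : Type v) [Field F] (k : Type u) [Field k] [Algebra F k]
    (n m ρ : ℕ) (lv s : Fin n → ℕ) : Subalgebra k (OO k n m ρ) :=
  (pre F k n m ρ lv s).map (Ideal.Quotient.mkₐ k (lowI k n m ρ))

variable (k n ρ c) in
/-- The embedding of the coordinate ring into the function field. -/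
noncomputable def thB : OO k n (ρ + c) ρ →ₐ[k] LR k n ρ c :=
  Ideal.Quotient.liftₐ (lowI k n (ρ + c) ρ) (thL k n ρ c) fun _ ha => thL_eq_zero.2 ha

lemma thB_mk (f : MvPolynomial (Fin n × Fin (ρ + c)) k) :
    thB k n ρ c (Ideal.Quotient.mk _ f) = thL k n ρ c f := rfl

lemma thB_injective : Function.Injective (thB k n ρ c) := by
  rw [injective_iff_map_eq_zero]
  intro a ha
  obtain ⟨f, rfl⟩ := Ideal.Quotient.mk_surjective a
  rw [thB_mk, thL_eq_zero] at ha
  exact Ideal.Quotient.eq_zero_iff_mem.2 ha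

lemma isDomain_OO : IsDomain (OO k n (ρ + c) ρ) :=
  thB_injective.isDomain (thB k n ρ c).toRingHom

lemma isDomain_AA (lv s : Fin n → ℕ) : IsDomain (AA F k n (ρ + c) ρ lv s) := by
  have := isDomain_OO (k := k) (n := n) (ρ := ρ) (c := c)
  infer_instance

lemma mem_pre_of_inva {m : ℕ} {lv s : Fin n → ℕ} {f : MvPolynomial (Fin n × Fin m) k}
    (hf : f ∈ inva (affGrp (F := F) (n := n) lv s (⊥ : Submodule F (Fin m → k)))) :
    f ∈ pre F k n m ρ lv s := by
  intro g hg
  obtain ⟨τ, hτ⟩ := exists_equiv (k := k) g (fun _ _ => 0 : Fin n → Fin m → k)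
  have h1 : τ ∈ affGrp (F := F) (n := n) lv s (⊥ : Submodule F (Fin m → k)) :=
    ⟨g, hg, fun _ _ => 0, fun _ => Submodule.zero_mem _, hτ⟩
  have h2 : sbs k m (g : Matrix (Fin n) (Fin n) F) f = f := by
    rw [sbs_eq, ← hτ]
    exact hf τ h1
  rw [h2, sub_self]
  exact Ideal.zero_mem _

instance finite_grp (m : ℕ) (lv s : Fin n → ℕ) :
    Finite (affGrp (F := F) (k := k) (n := n) lv s (⊥ : Submodule F (Fin m → k))) :=
  inferInstance

/-- The coordinate ring is integral over the invariants. -/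
lemma isIntegral_OO (m : ℕ) (lv s : Fin n → ℕ) :
    Algebra.IsIntegral (AA F k n m ρ lv s) (OO k n m ρ) := by
  have h1 := isIntegral_inva (affGrp (F := F) (k := k) (n := n) lv s
    (⊥ : Submodule F (Fin m → k)))
  constructor
  intro y
  obtain ⟨f, rfl⟩ := Ideal.Quotient.mk_surjective y
  obtain ⟨P, hP, h2⟩ := h1.isIntegral f
  let φ : inva (affGrp (F := F) (k := k) (n := n) lv s (⊥ : Submodule F (Fin m → k))) →+*
      AA F k n m ρ lv s :=
    ((Ideal.Quotient.mkₐ k (lowI k n m ρ)).comp (inva (affGrp (F := F) (k := k) (n := n) lv s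
      (⊥ : Submodule F (Fin m → k)))).val).toRingHom.codRestrict
        (AA F k n m ρ lv s).toSubring fun a => ⟨a.1, mem_pre_of_inva a.2, rfl⟩
  refine ⟨P.map φ, hP.map φ, ?_⟩
  rw [Polynomial.eval₂_map]
  have h3 : (algebraMap (AA F k n m ρ lv s) (OO k n m ρ)).comp φ =
      (Ideal.Quotient.mk (lowI k n m ρ)).comp (algebraMap (inva (affGrp (F := F) (k := k)
        (n := n) lv s (⊥ : Submodule F (Fin m → k)))) _) := rfl
  rw [h3, ← Polynomial.hom_eval₂, h2, map_zero]

lemma finiteType_of_integral {B : Type u} [CommRing B] [Algebra k B] [Algebra.FiniteType k B]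
    (A : Subalgebra k B) (h1 : Algebra.IsIntegral A B) : Algebra.FiniteType k A := by
  have h2 : Algebra.FiniteType A B := by
    apply Algebra.FiniteType.of_restrictScalars_finiteType k
  have h3 : Module.Finite A B := Algebra.IsIntegral.finite
  refine ⟨?_⟩
  refine fg_of_fg_of_fg k A B ?_ h3.1 ?_
  · exact (inferInstance : Algebra.FiniteType k B).1
  · exact Subtype.val_injective

lemma finiteType_AA (m : ℕ) (lv s : Fin n → ℕ) :
    Algebra.FiniteType k (AA F k n m ρ lv s) :=
  finiteType_of_integral _ (isIntegral_OO m lv s)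

end ring

end Pool.Agent.J6H83.Dv
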