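import Pool.Agent.J6H83.Dv.Mat
import Pool.Agent.R837.FM.Stage

/-!
Initial stages given by the row space of a matrix.
-/

set_option autoImplicit false
set_option linter.unusedSectionVars false

open Matrix

universe u v z

namespace Pool.Agent.J6H83.Dv

open Pool.Agent.R837.FM

variable {F : Type v} [Field F] [Fintype F] {k : Type z} [Field k] {L : Type u} [Field L]
  [Algebra F L] [Algebra k L] {m ρ : ℕ}

/-- The row space of a matrix. -/
def Xv (F : Type v) [Field F] {L : Type u} [Field L] [Algebra F L] {m ρ : ℕ}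
    (w : Matrix (Fin ρ) (Fin m) L) : Submodule F (Fin m → L) where
  carrier := {y | ∃ a : Fin ρ → L, ∀ j, y j = ∑ l, a l * w l j}
  add_mem' := by
    rintro y y' ⟨a, ha⟩ ⟨b, hb⟩
    refine ⟨a + b, fun j => ?_⟩
    rw [Pi.add_apply, ha, hb, ← Finset.sum_add_distrib]
    exact Finset.sum_congr rfl fun l _ => by rw [Pi.add_apply, add_mul]
  zero_mem' := ⟨0, fun j => by simp⟩
  smul_mem' := by
    rintro c y ⟨a, ha⟩
    refine ⟨c • a, fun j => ?_⟩
    rw [Pi.smul_apply, ha, Finset.smul_sum]
    exact Finset.sum_congr rfl fun l _ => by rw [Pi.smul_apply, smul_mul_assoc]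

/-- The coordinates at the columns `e`. -/
def re (F : Type v) [Field F] {L : Type u} [Field L] [Algebra F L] {m ρ : ℕ}
    (w : Matrix (Fin ρ) (Fin m) L) (e : Fin ρ → Fin m) : Xv F w →ₗ[F] (Fin ρ → L) where
  toFun := fun y l => (y : Fin m → L) (e l)
  map_add' := fun _ _ => rfl
  map_smul' := fun _ _ => rfl

lemma re_apply (w : Matrix (Fin ρ) (Fin m) L) (e : Fin ρ → Fin m) (y : Xv F w) (l : Fin ρ) :
    re F w e y l = (y : Fin m → L) (e l) := rfl

variable {w : Matrix (Fin ρ) (Fin m) L} {e : Fin ρ → Fin m}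

lemma eq_sum_We (h : (Ue w e).det ≠ 0) (y : Xv F w) (j : Fin m) :
    (y : Fin m → L) j = ∑ l, (y : Fin m → L) (e l) * We w e l j := by
  obtain ⟨a, ha⟩ := y.2
  have h1 := Ue_mul_We h
  have h2 : ∀ j, ∑ l, a l * w l j = ∑ c, (∑ l, a l * w l (e c)) * We w e c j := by
    intro j
    have h3 : ∀ l, w l j = ∑ c, w l (e c) * We w e c j := by
      intro l
      have h4 := congrFun (congrFun h1 l) j
      rw [Matrix.mul_apply] at h4
      exact h4.symm
    simp only [Finset.sum_mul]
    rw [Finset.sum_comm]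
    apply Finset.sum_congr rfl
    intro l _
    rw [h3 l, Finset.mul_sum]
    exact Finset.sum_congr rfl fun c _ => by ring
  rw [ha j, h2 j]
  apply Finset.sum_congr rfl
  intro c _
  rw [ha (e c)]

/-- The row space is stable under the endomorphisms which fix the reduced matrix. -/
lemma map_mem_Xv (h : (Ue w e).det ≠ 0) (σ : L →+* L) (hσ : ∀ l j, σ (We w e l j) = We w e l j)
    (y : Fin m → L) (hy : y ∈ Xv F w) : (fun j => σ (y j)) ∈ Xv F w := by
  refine ⟨fun l => ∑ c, σ (y (e c)) * (Ue w e)⁻¹ c l, fun j => ?_⟩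
  have h2 := eq_sum_We h (⟨y, hy⟩ : Xv F w) j
  have h2' : y j = ∑ l, y (e l) * We w e l j := h2
  simp only [h2', map_sum, map_mul, hσ]
  simp only [Finset.sum_mul]
  rw [Finset.sum_comm]
  apply Finset.sum_congr rfl
  intro c _
  rw [We, Matrix.mul_apply, Finset.mul_sum]
  exact Finset.sum_congr rfl fun l _ => by ring

/-- The initial stage. -/
theorem stage_of {B : Subalgebra k L} {T : Type} {e : T → Fin ρ → Fin m}
    (hdet : ∀ t, (Ue w (e t)).det ≠ 0) {R : T → Subalgebra k L}
    (hR : ∀ t l j, We w (e t) l j ∈ R t) {H : T → L} (H0 : ∀ t, H t ≠ 0) (HB : ∀ t, H t ∈ B)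
    (rt : ∀ t t', H t' / H t ∈ R t) (gl : ∀ t t', R t' ≤ Loc (R t) (H t' / H t))
    (dn : ∀ t, R t ≤ Loc B (H t))
    (cv : ∀ V : ValuationSubring L, (∀ a ∈ B, a ∈ V) → ∃ t, ∀ a ∈ R t, a ∈ V) :
    Stage F B (Xv F w) ⊥ 0 R H fun t => re F w (e t) where
  H0 := H0
  HB := HB
  rt := rt
  gl := gl
  dn := dn
  coef := fun t l => by
    have h1 := self_mem_op (F := F) (R t) (co (Xv F w)) (e t l)
    exact h1
  op := fun t t' l => by
    have h1 : (fun y => re F w (e t') y l) = fun y : Xv F w =>
        ∑ c, We w (e t) c (e t' l) * re F w (e t) y c := by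
      funext y
      rw [re_apply, eq_sum_We (hdet t) y]
      exact Finset.sum_congr rfl fun c _ => mul_comm _ _
    rw [h1]
    exact sum_mem_spn (S := gens F (re F w (e t))) Finset.univ _
      (fun c (y : Xv F w) => re F w (e t) y c) (fun c _ => le_loc _ _ (hR t _ _))
      (fun c _ => self_mem_op (Loc (R t) (H t' / H t)) (re F w (e t)) c)
  ker := fun t y => by
    rw [Submodule.mem_bot]
    constructor
    · intro hy
      funext j
      rw [eq_sum_We (hdet t) y]
      apply Finset.sum_eq_zero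
      intro l _
      have h1 := congrFun hy l
      rw [re_apply] at h1
      rw [h1]
      exact zero_mul _
    · intro hy
      funext l
      rw [re_apply, hy]
      rfl
  int := fun t V hV y hy j => by
    rw [eq_sum_We (hdet t) y]
    refine V.toSubring.sum_mem fun l _ => V.mul_mem _ _ (hy l) (hV _ (hR t _ _))
  cv := cv
  dim := fun t => ⟨Empty, inferInstance, fun p => p.elim, rfl, by
    refine le_trans (op_le_op le_rfl (r' := re F w (e t)) fun j => ?_)
      (spn_mono le_rfl Set.subset_union_left)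
    have h1 : (fun y => co (Xv F w) y j) = fun y : Xv F w =>
        ∑ c, We w (e t) c j * re F w (e t) y c := by
      funext y
      change (y : Fin m → L) j = _
      rw [eq_sum_We (hdet t) y]
      exact Finset.sum_congr rfl fun c _ => mul_comm _ _
    rw [h1]
    exact sum_mem_spn (S := gens F (re F w (e t))) Finset.univ _
      (fun c (y : Xv F w) => re F w (e t) y c) (fun c _ => hR t _ _)
      (fun c _ => self_mem_op (R t) (re F w (e t)) c)⟩

end Pool.Agent.J6H83.Dv
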