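import Pool.Agent.J6H83.Dv.Fld
import Pool.Agent.J6H83.Dv.Stg
import Pool.Agent.J6H83.Pk.Down
import Pool.Agent.R837.FM.Step

/-!
The charts of the variety of the matrices of rank at most `ρ` and the group `GL n F`.
-/

set_option autoImplicit false
set_option linter.unusedSectionVars false

open MvPolynomial Matrix Cardinal

universe u v

namespace Pool.Agent.J6H83.Dv

open Pool.Agent.R837.FM
open Pool.Agent.Y212.Fk (det_mem)
open Pool.Agent.J6H83.Pk (adjugate_mem)

variable {F : Type v} [Field F] [Fintype F] {k : Type u} [Field k] [Algebra F k] {n ρ c : ℕ}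

/-- The subalgebra generated by the entries of the generic matrix. -/
noncomputable def Bx (k : Type u) [Field k] (n ρ c : ℕ) : Subalgebra k (LR k n ρ c) :=
  Algebra.adjoin k {a | ∃ i l, a = xL k n ρ c i l}

lemma xL_mem (i : Fin n) (l : Fin (ρ + c)) : xL k n ρ c i l ∈ Bx k n ρ c :=
  Algebra.subset_adjoin ⟨i, l, rfl⟩

section gam

variable (hρn : ρ ≤ n) (γ : Matrix (Fin n) (Fin n) F)

/-- The first `ρ` rows of `γ x`. -/
noncomputable def gx : Matrix (Fin ρ) (Fin (ρ + c)) (LR k n ρ c) :=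
  Matrix.of fun i j => ∑ l, algebraMap F (LR k n ρ c) (γ (Fin.castLE hρn i) l) * xL k n ρ c l j

/-- The first `ρ` rows of `γ t`. -/
noncomputable def gt : Matrix (Fin ρ) (Fin ρ) (LR k n ρ c) :=
  Matrix.of fun i j => ∑ l, algebraMap F (LR k n ρ c) (γ (Fin.castLE hρn i) l) * tL k n ρ c l j

lemma gx_eq : gx (k := k) (c := c) hρn γ = gt (k := k) (c := c) hρn γ * wL k n ρ c := by
  ext1 i j
  rw [Matrix.mul_apply]
  simp only [gx, gt, Matrix.of_apply, xL_eq, Matrix.mul_apply, Finset.mul_sum, Finset.sum_mul]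
  rw [Finset.sum_comm]
  exact Finset.sum_congr rfl fun l _ => Finset.sum_congr rfl fun l' _ => by ring

lemma det_gx (e : Fin ρ → Fin (ρ + c)) :
    (Ue (gx (k := k) (c := c) hρn γ) e).det =
      (gt (k := k) (c := c) hρn γ).det * (Ue (wL k n ρ c) e).det := by
  rw [← Matrix.det_mul]
  congr 1
  ext1 i j
  rw [Ue, Matrix.submatrix_apply, gx_eq, Matrix.mul_apply, Matrix.mul_apply]
  rfl

lemma gx_mem (i : Fin ρ) (j : Fin (ρ + c)) : gx (k := k) (c := c) hρn γ i j ∈ Bx k n ρ c := by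
  simp only [gx, Matrix.of_apply]
  refine Subalgebra.sum_mem _ fun l _ => Subalgebra.mul_mem _ ?_ (xL_mem _ _)
  rw [IsScalarTower.algebraMap_apply F k (LR k n ρ c)]
  exact Subalgebra.algebraMap_mem _ _

lemma det_gx_mem (e : Fin ρ → Fin (ρ + c)) :
    (Ue (gx (k := k) (c := c) hρn γ) e).det ∈ Bx k n ρ c :=
  det_mem _ _ fun i j => gx_mem hρn γ i (e j)

end gam

lemma det_gt_ne (hρn : ρ ≤ n) (γ : Matrix.GeneralLinearGroup (Fin n) F) :
    (gt (k := k) (c := c) hρn (γ : Matrix (Fin n) (Fin n) F)).det ≠ 0 := by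
  let γ' : Matrix (Fin n) (Fin n) F := ((γ⁻¹ : Matrix.GeneralLinearGroup (Fin n) F) : Matrix _ _ F)
  let M : Matrix (Fin ρ) (Fin ρ) (PR k n ρ c) := Matrix.of fun i j =>
    ∑ l, C (algebraMap F k ((γ : Matrix (Fin n) (Fin n) F) (Fin.castLE hρn i) l)) *
      X (Sum.inl (l, j))
  have h1 : (gt (k := k) (c := c) hρn (γ : Matrix (Fin n) (Fin n) F)).det =
      algebraMap (PR k n ρ c) (LR k n ρ c) M.det := by
    rw [RingHom.map_det]
    congr 1
    ext1 i j
    simp only [gt, M, RingHom.mapMatrix_apply, Matrix.map_apply, Matrix.of_apply, map_sum,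
      map_mul]
    apply Finset.sum_congr rfl
    intro l _
    rw [IsScalarTower.algebraMap_apply F k (LR k n ρ c),
      IsScalarTower.algebraMap_apply k (PR k n ρ c) (LR k n ρ c)]
    rfl
  rw [h1, Ne, FaithfulSMul.algebraMap_eq_zero_iff]
  intro h
  let φ : PR k n ρ c →+* k := eval (Sum.elim
    (fun u => algebraMap F k (γ' u.1 (Fin.castLE hρn u.2))) fun _ => 0)
  have h2 : φ M.det = 1 := by
    rw [RingHom.map_det]
    have h3 : φ.mapMatrix M = 1 := by
      ext1 i j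
      rw [RingHom.mapMatrix_apply, Matrix.map_apply, Matrix.one_apply]
      simp only [M, Matrix.of_apply, map_sum, map_mul, φ, eval_C, eval_X, Sum.elim_inl]
      simp only [← map_mul, ← map_sum]
      have h4 : ∑ l, (γ : Matrix (Fin n) (Fin n) F) (Fin.castLE hρn i) l *
          γ' l (Fin.castLE hρn j) = (1 : Matrix (Fin n) (Fin n) F) (Fin.castLE hρn i)
            (Fin.castLE hρn j) := by
        have h5 : (γ : Matrix (Fin n) (Fin n) F) * γ' = 1 := by
          change ((γ * γ⁻¹ : Matrix.GeneralLinearGroup (Fin n) F) : Matrix (Fin n) (Fin n) F) = 1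
          rw [mul_inv_cancel]
          rfl
        rw [← Matrix.mul_apply, h5]
      rw [h4, Matrix.one_apply]
      by_cases hij : i = j
      · rw [if_pos hij, if_pos (congrArg _ hij), map_one]
      · rw [if_neg hij, if_neg fun h => hij (Fin.castLE_injective hρn h), map_zero]
    rw [h3, Matrix.det_one]
  rw [h, map_zero] at h2
  exact zero_ne_one h2

/-- The indices of the charts. -/
abbrev T0 (k : Type u) [Field k] (n ρ c : ℕ) : Type :=
  {e : Fin ρ → Fin (ρ + c) // (Ue (wL k n ρ c) e).det ≠ 0}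

/-- The chart rings. -/
noncomputable def R0 (t : T0 k n ρ c) : Subalgebra k (LR k n ρ c) :=
  Algebra.adjoin k (Set.range fun u : Fin ρ × Fin (ρ + c) => We (wL k n ρ c) t.1 u.1 u.2)

lemma We_mem (t : T0 k n ρ c) (l : Fin ρ) (j : Fin (ρ + c)) :
    We (wL k n ρ c) t.1 l j ∈ R0 t := Algebra.subset_adjoin ⟨(l, j), rfl⟩

lemma det_We_mem (t : T0 k n ρ c) (e' : Fin ρ → Fin (ρ + c)) :
    ((We (wL k n ρ c) t.1).submatrix id e').det ∈ R0 t :=
  det_mem _ _ fun i j => We_mem t i (e' j)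

lemma det_castAdd : (Ue (wL k n ρ c) (Fin.castAdd c)).det ≠ 0 := by
  have h1 : Ue (wL k n ρ c) (Fin.castAdd c) = 1 := by
    ext1 i j
    rw [Ue, Matrix.submatrix_apply, Matrix.one_apply]
    exact wL_castAdd _ _
  rw [h1, Matrix.det_one]
  exact one_ne_zero

section hh

variable (F) in
/-- The equations of the complements of the charts. -/
noncomputable def H0 [DecidableEq F] (hρn : ρ ≤ n) (t : T0 k n ρ c) : LR k n ρ c :=
  ∏ γ : Matrix.GeneralLinearGroup (Fin n) F,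
    (Ue (gx (k := k) (c := c) hρn (γ : Matrix (Fin n) (Fin n) F)) t.1).det

variable [DecidableEq F] (hρn : ρ ≤ n)

lemma H0_ne (t : T0 k n ρ c) : H0 F hρn t ≠ 0 := by
  rw [H0, Finset.prod_ne_zero_iff]
  intro γ _
  rw [det_gx]
  exact mul_ne_zero (det_gt_ne hρn γ) t.2

lemma H0_mem (t : T0 k n ρ c) : H0 F hρn t ∈ Bx k n ρ c :=
  Subalgebra.prod_mem _ fun _ _ => det_gx_mem hρn _ _

variable (F) in
/-- The order of the group. -/
noncomputable def NN (n : ℕ) : ℕ := Fintype.card (Matrix.GeneralLinearGroup (Fin n) F)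

lemma NN_pos : 0 < NN F n := Fintype.card_pos

lemma H0_div (t t' : T0 k n ρ c) : H0 F hρn t' / H0 F hρn t =
    ((We (wL k n ρ c) t.1).submatrix id t'.1).det ^ NN F n := by
  rw [H0, H0, ← Finset.prod_div_distrib, NN, ← Finset.card_univ, ← Finset.prod_const]
  apply Finset.prod_congr rfl
  intro γ _
  rw [det_gx, det_gx, ← det_Ue t.2, mul_div_mul_left _ _ (det_gt_ne hρn γ)]

lemma inv_mem (t t' : T0 k n ρ c) :
    (((We (wL k n ρ c) t.1).submatrix id t'.1).det)⁻¹ ∈
      Loc (R0 t) (H0 F hρn t' / H0 F hρn t) := by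
  have h1 : ((We (wL k n ρ c) t.1).submatrix id t'.1).det ≠ 0 := by
    rw [← det_Ue t.2]
    exact div_ne_zero t'.2 t.2
  have h2 : (((We (wL k n ρ c) t.1).submatrix id t'.1).det)⁻¹ =
      ((We (wL k n ρ c) t.1).submatrix id t'.1).det ^ (NN F n - 1) *
        (H0 F hρn t' / H0 F hρn t)⁻¹ := by
    obtain ⟨N, hN⟩ : ∃ N, NN F n = N + 1 :=
      ⟨NN F n - 1, (Nat.sub_add_cancel (NN_pos (F := F) (n := n))).symm⟩
    rw [H0_div, eq_mul_inv_iff_mul_eq₀ (pow_ne_zero _ h1), hN, Nat.add_sub_cancel,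
      pow_succ', ← mul_assoc, inv_mul_cancel₀ h1, one_mul]
  rw [h2]
  exact Subalgebra.mul_mem _ (le_loc _ _ (Subalgebra.pow_mem _ (det_We_mem t _) _))
    (inv_mem_loc _ _)

lemma R0_le (t t' : T0 k n ρ c) : R0 t' ≤ Loc (R0 t) (H0 F hρn t' / H0 F hρn t) := by
  rw [R0, Algebra.adjoin_le_iff]
  rintro _ ⟨⟨l, j⟩, rfl⟩
  simp only
  rw [We_trans t.2 t'.2, Matrix.mul_apply]
  refine Subalgebra.sum_mem _ fun i _ => Subalgebra.mul_mem _ ?_ (le_loc _ _ (We_mem t _ _))
  rw [Matrix.inv_def, Matrix.smul_apply, smul_eq_mul]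
  refine Subalgebra.mul_mem _ ?_ (le_loc _ _ ?_)
  · rw [Ring.inverse_eq_inv']
    exact inv_mem hρn t t'
  · exact adjugate_mem _ _ (fun i j => We_mem t _ _) _ _

lemma We_eq_gx (t : T0 k n ρ c) (l : Fin ρ) (j : Fin (ρ + c)) : We (wL k n ρ c) t.1 l j =
    (Ue (gx (k := k) (c := c) hρn (1 : Matrix (Fin n) (Fin n) F))
      (Function.update t.1 l j)).det /
    (Ue (gx (k := k) (c := c) hρn (1 : Matrix (Fin n) (Fin n) F)) t.1).det := by
  have h1 := det_gt_ne (k := k) (c := c) hρn (1 : Matrix.GeneralLinearGroup (Fin n) F)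
  rw [Units.val_one] at h1
  rw [We_eq_div t.2, det_gx, det_gx, mul_div_mul_left _ _ h1]

lemma R0_dn (t : T0 k n ρ c) : R0 t ≤ Loc (Bx k n ρ c) (H0 F hρn t) := by
  classical
  rw [R0, Algebra.adjoin_le_iff]
  rintro _ ⟨⟨l, j⟩, rfl⟩
  simp only
  rw [We_eq_gx (F := F) hρn t l j, div_eq_mul_inv]
  refine Subalgebra.mul_mem _ (le_loc _ _ (det_gx_mem hρn _ _)) ?_
  let D : Matrix.GeneralLinearGroup (Fin n) F → LR k n ρ c := fun γ =>
    (Ue (gx (k := k) (c := c) hρn (γ : Matrix (Fin n) (Fin n) F)) t.1).det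
  have hD : ∀ γ, D γ ≠ 0 := by
    intro γ
    change (Ue (gx (k := k) (c := c) hρn (γ : Matrix (Fin n) (Fin n) F)) t.1).det ≠ 0
    rw [det_gx]
    exact mul_ne_zero (det_gt_ne hρn γ) t.2
  have h1 : H0 F hρn t = D 1 * ∏ γ ∈ Finset.univ.erase 1, D γ :=
    (Finset.mul_prod_erase Finset.univ D (Finset.mem_univ 1)).symm
  have h2 : (D 1)⁻¹ = (∏ γ ∈ Finset.univ.erase 1, D γ) * (H0 F hρn t)⁻¹ := by
    rw [h1, mul_inv, mul_left_comm, mul_inv_cancel₀, mul_one]
    exact Finset.prod_ne_zero_iff.2 fun γ _ => hD γ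
  change (D 1)⁻¹ ∈ _
  rw [h2]
  exact Subalgebra.mul_mem _ (le_loc _ _ (Subalgebra.prod_mem _ fun γ _ => det_gx_mem hρn _ _))
    (inv_mem_loc _ _)

lemma R0_cv (V : ValuationSubring (LR k n ρ c)) (hV : ∀ a ∈ Bx k n ρ c, a ∈ V) :
    ∃ t : T0 k n ρ c, ∀ a ∈ R0 t, a ∈ V := by
  classical
  have hVk : ∀ c' : k, algebraMap k (LR k n ρ c) c' ∈ V :=
    fun c' => hV _ (Subalgebra.algebraMap_mem _ _)
  obtain ⟨e, -, he⟩ := Finset.exists_max_image
    (Finset.univ : Finset (Fin ρ → Fin (ρ + c)))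
    (fun e => V.valuation (Ue (wL k n ρ c) e).det) ⟨Fin.castAdd c, Finset.mem_univ _⟩
  have hne : (Ue (wL k n ρ c) e).det ≠ 0 := by
    intro h
    have h1 := he (Fin.castAdd c) (Finset.mem_univ _)
    simp only [h, map_zero, le_zero_iff, Valuation.zero_iff] at h1
    exact det_castAdd h1
  refine ⟨⟨e, hne⟩, ?_⟩
  have hle : R0 (⟨e, hne⟩ : T0 k n ρ c) ≤ valAlg V hVk := by
    rw [R0, Algebra.adjoin_le_iff]
    rintro _ ⟨⟨l, j⟩, rfl⟩
    change We (wL k n ρ c) e l j ∈ V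
    rw [We_eq_div hne, ← ValuationSubring.valuation_le_one_iff, map_div₀]
    exact div_le_one_of_le₀ (he _ (Finset.mem_univ _)) zero_le
  exact fun a ha => hle ha

/-- The initial stage. -/
theorem stage0 : Stage F (Bx k n ρ c) (Xv F (wL k n ρ c)) ⊥ 0 (fun t : T0 k n ρ c => R0 t)
    (fun t => H0 F hρn t) fun t => re F (wL k n ρ c) t.1 :=
  stage_of (fun t => t.2) We_mem (H0_ne hρn) (H0_mem hρn)
    (fun t t' => by
      rw [H0_div]
      exact Subalgebra.pow_mem _ (det_We_mem t _) _) (R0_le hρn) (R0_dn hρn) R0_cv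

end hh

/-- The number of the generators of the chart rings. -/
lemma R0_gen (t : T0 k n ρ c) : ∃ (P : Type) (_ : Fintype P) (w : P → LR k n ρ c),
    Fintype.card P = ρ * c ∧ R0 t = Algebra.adjoin k (Set.range w) := by
  classical
  have hinj := inj_of_det t.2
  refine ⟨Fin ρ × {j // j ∉ Set.range t.1}, inferInstance,
    fun u => We (wL k n ρ c) t.1 u.1 u.2, ?_, ?_⟩
  · rw [Fintype.card_prod, Fintype.card_fin]
    congr 1
    have h1 : Fintype.card {j // j ∈ Set.range t.1} = ρ := by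
      have h2 := (Fintype.card_congr (Equiv.ofInjective t.1 hinj)).symm.trans
        (Fintype.card_fin ρ)
      convert h2
    have h3 := Fintype.card_subtype_compl (fun j => j ∈ Set.range t.1)
    rw [h1, Fintype.card_fin] at h3
    rw [h3]
    omega
  · apply le_antisymm
    · rw [R0, Algebra.adjoin_le_iff]
      rintro _ ⟨⟨l, j⟩, rfl⟩
      change We (wL k n ρ c) t.1 l j ∈ _
      by_cases hj : j ∈ Set.range t.1
      · obtain ⟨l', rfl⟩ := hj
        rw [We_apply t.2]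
        split_ifs
        · exact Subalgebra.one_mem _
        · exact Subalgebra.zero_mem _
      · exact Algebra.subset_adjoin ⟨(l, ⟨j, hj⟩), rfl⟩
    · rw [Algebra.adjoin_le_iff]
      rintro _ ⟨u, rfl⟩
      exact We_mem t _ _

end Pool.Agent.J6H83.Dv
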