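import Pool.Agent.J6H83.Dv.Mat

/-!
The function field of the variety of the matrices of rank at most `ρ`.
-/

set_option autoImplicit false

open MvPolynomial Matrix Cardinal

universe u

namespace Pool.Agent.J6H83.Dv

/-- The variables. -/
abbrev Vr (n ρ c : ℕ) := (Fin n × Fin ρ) ⊕ (Fin ρ × Fin c)

/-- The polynomial ring. -/
abbrev PR (k : Type u) [Field k] (n ρ c : ℕ) := MvPolynomial (Vr n ρ c) k

/-- The function field. -/
abbrev LR (k : Type u) [Field k] (n ρ c : ℕ) := FractionRing (PR k n ρ c)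

section defs

variable (k : Type u) [Field k] (n ρ c : ℕ)

/-- The generic matrix `t`. -/
noncomputable def tP : Matrix (Fin n) (Fin ρ) (PR k n ρ c) :=
  Matrix.of fun i l => X (Sum.inl (i, l))

/-- The matrix `(1, w)`. -/
noncomputable def wP : Matrix (Fin ρ) (Fin (ρ + c)) (PR k n ρ c) :=
  Matrix.of fun l j => Fin.addCases (fun l' => if l = l' then 1 else 0)
    (fun j' => X (Sum.inr (l, j'))) j

/-- The generic matrix of rank at most `ρ`. -/
noncomputable def xP : Matrix (Fin n) (Fin (ρ + c)) (PR k n ρ c) := tP k n ρ c * wP k n ρ c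

/-- The generic matrix `t` over the function field. -/
noncomputable def tL : Matrix (Fin n) (Fin ρ) (LR k n ρ c) := (tP k n ρ c).map (algebraMap _ _)

/-- The matrix `(1, w)` over the function field. -/
noncomputable def wL : Matrix (Fin ρ) (Fin (ρ + c)) (LR k n ρ c) :=
  (wP k n ρ c).map (algebraMap _ _)

/-- The generic matrix of rank at most `ρ` over the function field. -/
noncomputable def xL : Matrix (Fin n) (Fin (ρ + c)) (LR k n ρ c) :=
  (xP k n ρ c).map (algebraMap _ _)

/-- The homomorphism to the polynomial ring. -/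
noncomputable def Th : MvPolynomial (Fin n × Fin (ρ + c)) k →ₐ[k] PR k n ρ c :=
  aeval fun v => xP k n ρ c v.1 v.2

end defs

variable {k : Type u} [Field k] {n ρ c : ℕ}

lemma xL_eq : xL k n ρ c = tL k n ρ c * wL k n ρ c := by
  rw [xL, tL, wL, xP, Matrix.map_mul]

lemma wL_castAdd (l l' : Fin ρ) : wL k n ρ c l (Fin.castAdd c l') = if l = l' then 1 else 0 := by
  simp only [wL, wP, Matrix.map_apply, Matrix.of_apply, Fin.addCases_left]
  split_ifs <;> simp

lemma wL_natAdd (l : Fin ρ) (j : Fin c) : wL k n ρ c l (Fin.natAdd ρ j) =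
    algebraMap (PR k n ρ c) (LR k n ρ c) (X (Sum.inr (l, j))) := by
  simp only [wL, wP, Matrix.map_apply, Matrix.of_apply, Fin.addCases_right]

lemma xP_castAdd (i : Fin n) (l : Fin ρ) : xP k n ρ c i (Fin.castAdd c l) =
    X (Sum.inl (i, l)) := by
  simp [xP, Matrix.mul_apply, wP, tP]

lemma xP_natAdd (i : Fin n) (j : Fin c) : xP k n ρ c i (Fin.natAdd ρ j) =
    ∑ l, X (Sum.inl (i, l)) * X (Sum.inr (l, j)) := by
  simp [xP, Matrix.mul_apply, wP, tP]

lemma xL_castAdd (i : Fin n) (l : Fin ρ) : xL k n ρ c i (Fin.castAdd c l) = tL k n ρ c i l := by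
  rw [xL, Matrix.map_apply, xP_castAdd]
  rfl

section low

/-- The ideal of the polynomials which vanish at all matrices of rank at most `ρ`. -/
def lowI (k : Type u) [Field k] (n m ρ : ℕ) : Ideal (MvPolynomial (Fin n × Fin m) k) where
  carrier := {f | ∀ (K : Type u) [Field K] [Algebra k K] (M : Matrix (Fin n) (Fin m) K),
    M.rank ≤ ρ → aeval (fun v : Fin n × Fin m => M v.1 v.2) f = 0}
  add_mem' := by
    intro a b ha hb K _ _ M hM
    rw [map_add, ha K M hM, hb K M hM, add_zero]
  zero_mem' := by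
    intro K _ _ M _
    exact map_zero _
  smul_mem' := by
    intro a b hb K _ _ M hM
    rw [smul_eq_mul, map_mul, hb K M hM, mul_zero]

lemma mem_lowI {m : ℕ} {f : MvPolynomial (Fin n × Fin m) k} : f ∈ lowI k n m ρ ↔
    ∀ (K : Type u) [Field K] [Algebra k K] (M : Matrix (Fin n) (Fin m) K),
    M.rank ≤ ρ → aeval (fun v : Fin n × Fin m => M v.1 v.2) f = 0 := Iff.rfl

lemma rank_xL : (xL k n ρ c).rank ≤ ρ := by
  rw [xL_eq]
  exact (Matrix.rank_mul_le_left _ _).trans (Matrix.rank_le_width _)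

lemma algebraMap_Th (f : MvPolynomial (Fin n × Fin (ρ + c)) k) :
    algebraMap (PR k n ρ c) (LR k n ρ c) (Th k n ρ c f) =
      aeval (fun v : Fin n × Fin (ρ + c) => xL k n ρ c v.1 v.2) f := by
  have h : (IsScalarTower.toAlgHom k (PR k n ρ c) (LR k n ρ c)).comp (Th k n ρ c) =
      aeval (fun v : Fin n × Fin (ρ + c) => xL k n ρ c v.1 v.2) := by
    apply MvPolynomial.algHom_ext
    intro v
    rw [AlgHom.comp_apply, Th, aeval_X, aeval_X]
    rfl
  exact DFunLike.congr_fun h f

section generic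

variable (K : Type u) [Field K] [Algebra k K]

/-- The ring of the generic factorization. -/
abbrev QK (n ρ m : ℕ) := MvPolynomial ((Fin n × Fin ρ) ⊕ (Fin ρ × Fin m)) K

/-- The generic left factor. -/
noncomputable def aK (n ρ m : ℕ) : Matrix (Fin n) (Fin ρ) (QK K n ρ m) :=
  Matrix.of fun i l => X (Sum.inl (i, l))

/-- The generic right factor. -/
noncomputable def bK (n ρ m : ℕ) : Matrix (Fin ρ) (Fin m) (QK K n ρ m) :=
  Matrix.of fun l j => X (Sum.inr (l, j))

/-- The generic right factor over the field. -/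
noncomputable def bF (n ρ m : ℕ) : Matrix (Fin ρ) (Fin m) (FractionRing (QK K n ρ m)) :=
  (bK K n ρ m).map (algebraMap _ _)

/-- The generic left factor over the field. -/
noncomputable def aF (n ρ m : ℕ) : Matrix (Fin n) (Fin ρ) (FractionRing (QK K n ρ m)) :=
  (aK K n ρ m).map (algebraMap _ _)

lemma det_bF {m : ℕ} {e : Fin ρ → Fin m} (he : Function.Injective e) :
    (Ue (bF K n ρ m) e).det ≠ 0 := by
  have h1 : (Ue (bF K n ρ m) e).det = algebraMap _ _ ((bK K n ρ m).submatrix id e).det := by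
    rw [RingHom.map_det]
    rfl
  rw [h1, Ne, FaithfulSMul.algebraMap_eq_zero_iff]
  intro h
  let φ : QK K n ρ m →+* K := eval (Sum.elim (fun _ => 0) fun u => if e u.1 = u.2 then 1 else 0)
  have h2 : φ ((bK K n ρ m).submatrix id e).det = 1 := by
    rw [RingHom.map_det]
    have h3 : φ.mapMatrix ((bK K n ρ m).submatrix id e) = 1 := by
      ext1 i l
      rw [RingHom.mapMatrix_apply, Matrix.map_apply, Matrix.submatrix_apply, Matrix.one_apply]
      simp only [bK, Matrix.of_apply, φ, eval_X, id, Sum.elim_inr]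
      by_cases hil : i = l
      · rw [if_pos hil, if_pos (congrArg e hil)]
      · rw [if_neg hil, if_neg fun h => hil (he h)]
    rw [h3, Matrix.det_one]
  rw [h, map_zero] at h2
  exact zero_ne_one h2

/-- The homomorphism to the field of the generic factorization. -/
noncomputable def ph (k : Type u) [Field k] (K : Type u) [Field K] [Algebra k K] (n ρ c : ℕ) :
    PR k n ρ c →ₐ[k] FractionRing (QK K n ρ (ρ + c)) :=
  aeval (Sum.elim (fun u => (aF K n ρ (ρ + c) * Ue (bF K n ρ (ρ + c)) (Fin.castAdd c)) u.1 u.2)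
    fun u => We (bF K n ρ (ρ + c)) (Fin.castAdd c) u.1 (Fin.natAdd ρ u.2))

lemma ph_w (l : Fin ρ) (j : Fin (ρ + c)) : ph k K n ρ c (wP k n ρ c l j) =
    We (bF K n ρ (ρ + c)) (Fin.castAdd c) l j := by
  have hdet := det_bF (n := n) K (e := (Fin.castAdd c : Fin ρ → Fin (ρ + c)))
    (Fin.castAdd_injective ρ c)
  induction j using Fin.addCases with
  | left l' =>
    simp only [wP, Matrix.of_apply, Fin.addCases_left]
    rw [We_apply hdet]
    split_ifs
    · exact map_one _
    · exact map_zero _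
  | right j =>
    simp only [wP, Matrix.of_apply, Fin.addCases_right]
    rw [ph, aeval_X]
    rfl

lemma ph_t (i : Fin n) (l : Fin ρ) : ph k K n ρ c (tP k n ρ c i l) =
    (aF K n ρ (ρ + c) * Ue (bF K n ρ (ρ + c)) (Fin.castAdd c)) i l := by
  simp only [tP, Matrix.of_apply]
  rw [ph, aeval_X]
  rfl

lemma ph_x (i : Fin n) (j : Fin (ρ + c)) : ph k K n ρ c (xP k n ρ c i j) =
    (aF K n ρ (ρ + c) * bF K n ρ (ρ + c)) i j := by
  have hdet := det_bF (n := n) K (e := (Fin.castAdd c : Fin ρ → Fin (ρ + c)))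
    (Fin.castAdd_injective ρ c)
  have h1 : aF K n ρ (ρ + c) * bF K n ρ (ρ + c) =
      (aF K n ρ (ρ + c) * Ue (bF K n ρ (ρ + c)) (Fin.castAdd c)) *
        We (bF K n ρ (ρ + c)) (Fin.castAdd c) := by
    rw [Matrix.mul_assoc, Ue_mul_We hdet]
  rw [h1, Matrix.mul_apply, xP, Matrix.mul_apply, map_sum]
  apply Finset.sum_congr rfl
  intro l _
  rw [map_mul, ph_w, ph_t]

lemma aeval_of_Th {f : MvPolynomial (Fin n × Fin (ρ + c)) k} (hf : Th k n ρ c f = 0)
    (a : Matrix (Fin n) (Fin ρ) K) (b : Matrix (Fin ρ) (Fin (ρ + c)) K) :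
    aeval (fun v : Fin n × Fin (ρ + c) => (a * b) v.1 v.2) f = 0 := by
  -- the generic product
  have h1 : aeval (fun v : Fin n × Fin (ρ + c) =>
      (aK K n ρ (ρ + c) * bK K n ρ (ρ + c)) v.1 v.2) f = 0 := by
    apply (FaithfulSMul.algebraMap_eq_zero_iff (QK K n ρ (ρ + c))
      (FractionRing (QK K n ρ (ρ + c)))).1
    have h2 : (ph k K n ρ c).comp (Th k n ρ c) =
        (IsScalarTower.toAlgHom k (QK K n ρ (ρ + c)) (FractionRing (QK K n ρ (ρ + c)))).comp
          (aeval (fun v : Fin n × Fin (ρ + c) =>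
            (aK K n ρ (ρ + c) * bK K n ρ (ρ + c)) v.1 v.2)) := by
      apply MvPolynomial.algHom_ext
      intro v
      rw [AlgHom.comp_apply, AlgHom.comp_apply, Th, aeval_X, aeval_X, ph_x]
      change _ = algebraMap _ _ _
      rw [Matrix.mul_apply, Matrix.mul_apply, map_sum]
      apply Finset.sum_congr rfl
      intro l _
      rw [map_mul]
      rfl
    have h3 := DFunLike.congr_fun h2 f
    rw [AlgHom.comp_apply, hf, map_zero] at h3
    exact h3.symm
  -- specialization
  let ψ : QK K n ρ (ρ + c) →ₐ[K] K := aeval (Sum.elim (fun u => a u.1 u.2) fun u => b u.1 u.2)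
  have h4 : (ψ.restrictScalars k).comp (aeval (fun v : Fin n × Fin (ρ + c) =>
      (aK K n ρ (ρ + c) * bK K n ρ (ρ + c)) v.1 v.2)) =
      aeval (fun v : Fin n × Fin (ρ + c) => (a * b) v.1 v.2) := by
    apply MvPolynomial.algHom_ext
    intro v
    rw [AlgHom.comp_apply, aeval_X, aeval_X]
    change ψ _ = _
    rw [Matrix.mul_apply, Matrix.mul_apply, map_sum]
    apply Finset.sum_congr rfl
    intro l _
    rw [map_mul]
    simp [ψ, aK, bK]
  have h5 := DFunLike.congr_fun h4 f
  rw [AlgHom.comp_apply, h1, map_zero] at h5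
  exact h5.symm

end generic

lemma mem_lowI_iff {f : MvPolynomial (Fin n × Fin (ρ + c)) k} :
    f ∈ lowI k n (ρ + c) ρ ↔ Th k n ρ c f = 0 := by
  constructor
  · intro h
    apply (FaithfulSMul.algebraMap_eq_zero_iff (PR k n ρ c) (LR k n ρ c)).1
    rw [algebraMap_Th]
    exact h (LR k n ρ c) (xL k n ρ c) rank_xL
  · intro h K _ _ M hM
    obtain ⟨a, b, rfl⟩ := exists_factor M hM
    exact aeval_of_Th K h a b

end low

end Pool.Agent.J6H83.Dv
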