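import Mathlib

/-!
Reduced forms of matrices, factorization of matrices of bounded rank.
-/

set_option autoImplicit false

open Matrix

namespace Pool.Agent.J6H83.Dv

variable {ρ m : ℕ} {K : Type*} [Field K]

/-- The square submatrix with the columns `e`. -/
def Ue (w : Matrix (Fin ρ) (Fin m) K) (e : Fin ρ → Fin m) : Matrix (Fin ρ) (Fin ρ) K :=
  w.submatrix id e

/-- The reduced matrix. -/
noncomputable def We (w : Matrix (Fin ρ) (Fin m) K) (e : Fin ρ → Fin m) :
    Matrix (Fin ρ) (Fin m) K := (Ue w e)⁻¹ * w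

variable {w : Matrix (Fin ρ) (Fin m) K} {e : Fin ρ → Fin m}

lemma inj_of_det (h : (Ue w e).det ≠ 0) : Function.Injective e := by
  intro a b hab
  by_contra hne
  apply h
  apply Matrix.det_zero_of_column_eq hne
  intro i
  simp [Ue, hab]

section

variable (h : (Ue w e).det ≠ 0)

include h

lemma Ue_mul_We : Ue w e * We w e = w := by
  rw [We, ← Matrix.mul_assoc, Matrix.mul_nonsing_inv _ (IsUnit.mk0 _ h), Matrix.one_mul]

lemma We_sub : (We w e).submatrix id e = 1 := by
  have h1 : (We w e).submatrix id e = (Ue w e)⁻¹ * Ue w e := by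
    ext1 a b
    simp [We, Ue, Matrix.mul_apply]
  rw [h1, Matrix.nonsing_inv_mul _ (IsUnit.mk0 _ h)]

lemma We_apply (l l' : Fin ρ) : We w e l (e l') = if l = l' then 1 else 0 := by
  have h1 := congrFun (congrFun (We_sub h) l) l'
  rwa [Matrix.one_apply] at h1

lemma Ue_eq (e' : Fin ρ → Fin m) : Ue w e' = Ue w e * (We w e).submatrix id e' := by
  ext1 a b
  have h1 := congrFun (congrFun (Ue_mul_We h) a) (e' b)
  rw [Matrix.mul_apply] at h1 ⊢
  exact h1.symm

lemma det_Ue (e' : Fin ρ → Fin m) : (Ue w e').det / (Ue w e).det =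
    ((We w e).submatrix id e').det := by
  rw [Ue_eq h e', Matrix.det_mul, mul_div_cancel_left₀ _ h]

lemma We_eq_div (l : Fin ρ) (j : Fin m) : We w e l j =
    (Ue w (Function.update e l j)).det / (Ue w e).det := by
  rw [eq_div_iff h]
  have h1 : We w e l j = ((Ue w e)⁻¹ *ᵥ (fun a => w a j)) l := by
    rw [We, Matrix.mul_apply]
    rfl
  have h2 : Ue w (Function.update e l j) = (Ue w e).updateCol l (fun a => w a j) := by
    ext1 a b
    by_cases hb : b = l
    · subst hb
      simp [Ue]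
    · simp [Ue, Matrix.updateCol_ne hb, Function.update_of_ne hb]
  rw [h1, h2, ← Matrix.cramer_apply, Matrix.inv_def, Matrix.smul_mulVec,
    ← Matrix.cramer_eq_adjugate_mulVec, Pi.smul_apply, smul_eq_mul]
  have h3 := Ring.inverse_mul_cancel _ (IsUnit.mk0 _ h)
  calc _ = (Ring.inverse (Ue w e).det * (Ue w e).det) *
        (Ue w e).cramer (fun a => w a j) l := by ring
    _ = _ := by rw [h3, one_mul]

lemma We_trans {e' : Fin ρ → Fin m} (h' : (Ue w e').det ≠ 0) :
    We w e' = ((We w e).submatrix id e')⁻¹ * We w e := by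
  have h1 : ((We w e).submatrix id e').det ≠ 0 := by
    rw [← det_Ue h]
    exact div_ne_zero h' h
  have h2 : (Ue w e')⁻¹ = ((We w e).submatrix id e')⁻¹ * (Ue w e)⁻¹ := by
    rw [Ue_eq h e', Matrix.mul_inv_rev]
  rw [We, h2, Matrix.mul_assoc, ← We]

end

/-- Factorization of matrices of bounded rank. -/
lemma exists_factor {n : ℕ} (M : Matrix (Fin n) (Fin m) K) (hM : M.rank ≤ ρ) :
    ∃ (a : Matrix (Fin n) (Fin ρ) K) (b : Matrix (Fin ρ) (Fin m) K), M = a * b := by
  classical
  let U := LinearMap.range M.mulVecLin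
  have hU : Module.finrank K U ≤ ρ := hM
  let bs := Module.finBasis K U
  let a : Matrix (Fin n) (Fin ρ) K := Matrix.of fun i l =>
    if h : (l : ℕ) < Module.finrank K U then ((bs ⟨l, h⟩ : U) : Fin n → K) i else 0
  have hcol : ∀ j, M.col j ∈ U := by
    intro j
    refine ⟨Pi.single j 1, ?_⟩
    rw [Matrix.mulVecLin_apply, Matrix.mulVec_single_one]
  let b : Matrix (Fin ρ) (Fin m) K := Matrix.of fun l j =>
    if h : (l : ℕ) < Module.finrank K U then bs.repr ⟨M.col j, hcol j⟩ ⟨l, h⟩ else 0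
  refine ⟨a, b, ?_⟩
  ext1 i j
  rw [Matrix.mul_apply]
  have h1 := bs.sum_repr ⟨M.col j, hcol j⟩
  have h2 := congrArg (fun u : U => (u : Fin n → K) i) h1
  simp only [Submodule.coe_sum, Submodule.coe_smul, Finset.sum_apply, Pi.smul_apply,
    smul_eq_mul] at h2
  have h3 : M i j = M.col j i := rfl
  rw [h3, ← h2]
  have h4 : ∑ l : Fin ρ, a i l * b l j = ∑ l : Fin ρ,
      if h : (l : ℕ) < Module.finrank K U then bs.repr ⟨M.col j, hcol j⟩ ⟨l, h⟩ *
        ((bs ⟨l, h⟩ : U) : Fin n → K) i else 0 := by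
    apply Finset.sum_congr rfl
    intro l _
    simp only [a, b, Matrix.of_apply]
    split_ifs
    · rw [mul_comm]
    · rw [mul_zero]
  rw [h4]
  have h5 : Function.Injective (Fin.castLE hU) := Fin.castLE_injective hU
  rw [← Finset.sum_subset (Finset.subset_univ (Finset.univ.map ⟨Fin.castLE hU, h5⟩))]
  · rw [Finset.sum_map]
    apply Finset.sum_congr rfl
    intro x _
    rw [dif_pos]
    rfl
  · intro x _ hx
    rw [dif_neg]
    intro h
    apply hx
    rw [Finset.mem_map]
    exact ⟨⟨x, h⟩, Finset.mem_univ _, rfl⟩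

end Pool.Agent.J6H83.Dv
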